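import Pool.Agent.Helper40.PR.Defs3
import Pool.Agent.Helper59.PR.TK2
import Pool.Agent.Helper8.PR.TK1
import Pool.Agent.Helper55.PR.TK4B
import Pool.Agent.Helper65.PR.TK4A
import Pool.Agent.Helper54.PR.TK5
import Pool.Agent.Helper26.PR.TK6
import Pool.Agent.Helper26.PR.TK7
import Pool.Agent.Helper26.PR.CD2

/-!
# PR-E10B: `normal_of_first`
-/

set_option autoImplicit false

namespace PR

open ContinuousLinearMap InnerProductSpace Complex

open scoped ComplexConjugate

section e10b

variable {H : Type*} [NormedAddCommGroup H] [InnerProductSpace ℂ H] [CompleteSpace H]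

/-- The second slot test with a general operator of rank one. -/
theorem e10b_test (T : H →L[ℂ] H) (x : H) (g : H →L[ℂ] ℂ) :
    sr (skb T (rk x g)) =
      Rt (g (T x) - g (adjoint T x)) (g x * g (adjoint T (T x)) - g (T x) * g (adjoint T x)) := by
  have h1 : skb T (rk x g) = rk (T x) g + rk (-x) (g.comp (adjoint T)) := by
    ext z
    simp [skb, rk, sub_eq_add_neg]
  rw [h1, sr_rk_add_rk]
  congr 1
  · simp [sub_eq_add_neg]
  · simp
    ring

/-- The same for `η • T†`. -/
theorem e10b_test' (T : H →L[ℂ] H) {η : ℂ} (hη : ‖η‖ = 1) (x : H) (g : H →L[ℂ] ℂ) :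
    sr (skb (η • adjoint T) (rk x g)) =
      Rt (η * g (adjoint T x) - conj η * g (T x))
        (g x * g (T (adjoint T x)) - g (T x) * g (adjoint T x)) := by
  have hη' : η * conj η = 1 := by
    rw [Complex.mul_conj, Complex.normSq_eq_norm_sq, hη]
    simp
  have ha : adjoint (η • adjoint T) = conj η • T := by
    rw [map_smulₛₗ, adjoint_adjoint]
  rw [e10b_test, ha]
  congr 1
  · simp
  · simp only [smul_apply, map_smul, smul_eq_mul]
    linear_combination (g x * g (T (adjoint T x)) - g (T x) * g (adjoint T x)) * hη'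

/-- Comparison of the determinants on the hyperplane `g (T x) = g (T† x)`. -/
theorem e10b_le {T : H →L[ℂ] H} {η : ℂ} (hη : ‖η‖ = 1)
    (h : ∀ S, sr (skb (η • adjoint T) S) = sr (skb T S)) (x : H) (g : H →L[ℂ] ℂ)
    (hg : g (T x) = g (adjoint T x)) :
    ‖g x * g (T (adjoint T x)) - g (T x) * g (T x)‖ ≤
      ‖g x * g (adjoint T (T x)) - g (T x) * g (T x)‖ := by
  have h1 := h (rk x g)
  rw [e10b_test' T hη, e10b_test, ← hg, sub_self, Rt_zero_left] at h1
  have h2 := norm_det_le (η * g (T x) - conj η * g (T x))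
    (g x * g (T (adjoint T x)) - g (T x) * g (T x))
  rw [h1, Real.sq_sqrt (norm_nonneg _)] at h2
  exact h2

/-- Two functionals whose product vanishes on a common hyperplane. -/
theorem e10b_core {T : H →L[ℂ] H} {η : ℂ} (hη : ‖η‖ = 1)
    (h : ∀ S, sr (skb (η • adjoint T) S) = sr (skb T S)) (x : H)
    (hx : LinearIndependent ℂ ![x, T x, adjoint T x]) (g : H →L[ℂ] ℂ)
    (hg : g (T x) = g (adjoint T x)) :
    g x * (g (adjoint T (T x)) - g (T (adjoint T x))) = 0 := by
  obtain ⟨g0, hg0⟩ := exists_dual_fin hx ![0, 1, 1]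
  have a0 : g0 x = 0 := by simpa using hg0 0
  have a1 : g0 (T x) = 1 := by simpa using hg0 1
  have a2 : g0 (adjoint T x) = 1 := by simpa using hg0 2
  open Polynomial in
  let f : H → ℂ[X] := fun z => C (g0 z) + X * C (g z - g0 z)
  have hf : ∀ z t, (f z).eval t = (g0 + t • (g - g0)) z := by
    intro z t
    simp [f]
  have hf0 : ∀ z, (f z).eval 0 = g0 z := by
    intro z
    simp [f]
  have hf1 : ∀ z, (f z).eval 1 = g z := by
    intro z
    simp [f]
  obtain ⟨c, -, hc⟩ := poly_norm_le (f x * f (T (adjoint T x)) - f (T x) * f (T x))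
    (f x * f (adjoint T (T x)) - f (T x) * f (T x)) (by
      intro t
      simp only [Polynomial.eval_sub, Polynomial.eval_mul, hf]
      apply e10b_le hη h
      rw [add_apply, add_apply, smul_apply, smul_apply, sub_apply, sub_apply, a1, a2, hg])
  have hc1 : c = 1 := by
    have h1 := congrArg (Polynomial.eval 0) hc
    simp only [Polynomial.eval_sub, Polynomial.eval_mul, Polynomial.eval_C, hf0, a0, a1] at h1
    linear_combination h1
  have h2 := congrArg (Polynomial.eval 1) hc
  simp only [Polynomial.eval_sub, Polynomial.eval_mul, Polynomial.eval_C, hf1, hc1] at h2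
  linear_combination -h2

theorem e10b_dep {T : H →L[ℂ] H} {η : ℂ} (hη : ‖η‖ = 1)
    (h : ∀ S, sr (skb (η • adjoint T) S) = sr (skb T S)) (x : H)
    (hx : LinearIndependent ℂ ![x, T x, adjoint T x]) :
    ¬ LinearIndependent ℂ ![(T - adjoint T) x, (adjoint T * T - T * adjoint T) x] := by
  intro hli
  have hx2 : LinearIndependent ℂ ![(T - adjoint T) x, x] := by
    rw [LinearIndependent.pair_iff]
    rw [li3_iff] at hx
    intro s t hst
    have h1 := hx t s (-s) (by
      rw [← hst, sub_apply]
      module)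
    exact ⟨h1.2.1, h1.1⟩
  obtain ⟨g1, hg1⟩ := exists_dual_fin hli ![0, 1]
  have b0 : g1 ((T - adjoint T) x) = 0 := by simpa using hg1 0
  have b1 : g1 ((adjoint T * T - T * adjoint T) x) = 1 := by simpa using hg1 1
  obtain ⟨g2, hg2⟩ := exists_dual_fin hx2 ![0, 1]
  have c0 : g2 ((T - adjoint T) x) = 0 := by simpa using hg2 0
  have c1 : g2 x = 1 := by simpa using hg2 1
  have key : ∀ g : H →L[ℂ] ℂ, g ((T - adjoint T) x) = 0 →
      g x * g ((adjoint T * T - T * adjoint T) x) = 0 := by
    intro g hg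
    rw [sub_apply, map_sub, sub_eq_zero] at hg
    have h1 := e10b_core hη h x hx g hg
    rw [← map_sub] at h1
    exact h1
  have k1 := key g1 b0
  have k2 := key g2 c0
  have k3 := key (g1 + g2) (by rw [add_apply, b0, c0, add_zero])
  rw [b1, mul_one] at k1
  rw [c1, one_mul] at k2
  rw [add_apply, add_apply, k1, k2, b1, c1] at k3
  norm_num at k3

/-- `[T, D] = c D` forces `D ^ n = 0` or `c = 0`. -/
theorem e10b_comm {T D : H →L[ℂ] H} {c : ℂ} (hc : T * D - D * T = c • D) (n : ℕ) :
    T * D ^ n - D ^ n * T = ((n : ℂ) * c) • D ^ n := by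
  induction n with
  | zero => simp
  | succ n ih =>
    have h1 : T * D ^ (n + 1) - D ^ (n + 1) * T =
        (T * D ^ n - D ^ n * T) * D + D ^ n * (T * D - D * T) := by
      rw [pow_succ]
      noncomm_ring
    rw [h1, ih, hc, pow_succ, smul_mul_assoc, mul_smul_comm, ← add_smul]
    congr 1
    push_cast
    ring

theorem e10b_nilp {T D : H →L[ℂ] H} {c : ℂ} (hc : T * D - D * T = c • D) (hc0 : c ≠ 0) :
    ∃ n : ℕ, D ^ n = 0 := by
  obtain ⟨n, hn⟩ := exists_nat_gt (2 * ‖T‖ / ‖c‖)
  refine ⟨n, ?_⟩
  by_contra hne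
  have hpos : 0 < ‖D ^ n‖ := norm_pos_iff.2 hne
  have h1 := e10b_comm hc n
  have h2 : ‖((n : ℂ) * c) • D ^ n‖ ≤ 2 * ‖T‖ * ‖D ^ n‖ := by
    rw [← h1]
    calc ‖T * D ^ n - D ^ n * T‖ ≤ ‖T * D ^ n‖ + ‖D ^ n * T‖ := norm_sub_le _ _
      _ ≤ ‖T‖ * ‖D ^ n‖ + ‖D ^ n‖ * ‖T‖ := add_le_add (norm_mul_le _ _) (norm_mul_le _ _)
      _ = 2 * ‖T‖ * ‖D ^ n‖ := by ring
  rw [norm_smul, norm_mul, Complex.norm_natCast] at h2
  have h3 : (n : ℝ) * ‖c‖ ≤ 2 * ‖T‖ := le_of_mul_le_mul_right h2 hpos
  rw [div_lt_iff₀ (norm_pos_iff.2 hc0)] at hn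
  linarith

/-- a nilpotent skew-adjoint operator is zero -/
theorem e10b_skew_zero {D : H →L[ℂ] H} (hD : adjoint D = -D) {n : ℕ} (hn : D ^ n = 0) :
    D = 0 := by
  have h1 : IsSelfAdjoint (I • D) := by
    rw [isSelfAdjoint_iff, star_smul, ContinuousLinearMap.star_eq_adjoint, hD]
    simp
  have h2 : (I • D) ^ 2 ^ n = 0 := by
    rw [smul_pow, pow_eq_zero_of_le (Nat.lt_two_pow_self (n := n)).le hn, smul_zero]
  have h3 := h1.nnnorm_pow_two_pow n
  rw [h2, nnnorm_zero] at h3
  have h4 : ‖I • D‖₊ = 0 := pow_eq_zero_iff (pow_ne_zero n two_ne_zero) |>.1 h3.symm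
  have h5 : I • D = 0 := nnnorm_eq_zero.1 h4
  exact (smul_eq_zero.1 h5).resolve_left I_ne_zero

theorem e10b_sa_sq {K : H →L[ℂ] H} (hK : adjoint K = K) (h2 : K * K = 0) : K = 0 := by
  ext x
  have h1 : inner ℂ (K x) (K x) = inner ℂ x (K (K x)) := by
    conv_lhs => rw [← hK]
    rw [adjoint_inner_left]
    rw [hK]
  have h3 : K (K x) = 0 := by
    have := congrArg (fun A : H →L[ℂ] H => A x) h2
    simpa using this
  rw [h3, inner_zero_right, inner_self_eq_zero] at h1
  rw [h1]
  rfl

theorem e10b_dt3 {h : Fin 3 → H →L[ℂ] ℂ} {a b c : H} (hd : ¬ LinearIndependent ℂ ![a, b, c]) :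
    dt3 (fun i => h i a) (fun i => h i b) (fun i => h i c) = 0 := by
  obtain ⟨r, s, t, h1, h2⟩ := dep3 hd
  have e : ∀ i, r * h i a + s * h i b + t * h i c = 0 := by
    intro i
    have := congrArg (h i) h1
    simpa using this
  by_contra hne
  apply h2
  refine ⟨?_, ?_, ?_⟩
  · have : r * dt3 (fun i => h i a) (fun i => h i b) (fun i => h i c) = 0 := by
      unfold dt3
      linear_combination (h 1 b * h 2 c - h 2 b * h 1 c) * e 0
        - (h 0 b * h 2 c - h 2 b * h 0 c) * e 1 + (h 0 b * h 1 c - h 1 b * h 0 c) * e 2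
    exact (mul_eq_zero.1 this).resolve_right hne
  · have : s * dt3 (fun i => h i a) (fun i => h i b) (fun i => h i c) = 0 := by
      unfold dt3
      linear_combination -(h 1 a * h 2 c - h 2 a * h 1 c) * e 0
        + (h 0 a * h 2 c - h 2 a * h 0 c) * e 1 - (h 0 a * h 1 c - h 1 a * h 0 c) * e 2
    exact (mul_eq_zero.1 this).resolve_right hne
  · have : t * dt3 (fun i => h i a) (fun i => h i b) (fun i => h i c) = 0 := by
      unfold dt3
      linear_combination (h 1 a * h 2 b - h 2 a * h 1 b) * e 0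
        - (h 0 a * h 2 b - h 2 a * h 0 b) * e 1 + (h 0 a * h 1 b - h 1 a * h 0 b) * e 2
    exact (mul_eq_zero.1 this).resolve_right hne

/-- Local dependence spreads from one good vector to all vectors. -/
theorem e10b_all {A B D K : H →L[ℂ] H} {x0 : H} (hx0 : LinearIndependent ℂ ![x0, A x0, B x0])
    (h : ∀ x, LinearIndependent ℂ ![x, A x, B x] → ¬ LinearIndependent ℂ ![D x, K x]) (y : H) :
    ¬ LinearIndependent ℂ ![D y, K y] := by
  intro hy
  have hex : ∀ i : Fin 3, ∃ f : H →L[ℂ] ℂ, ∀ j, f (![x0, A x0, B x0] j) = if j = i then 1 else 0 :=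
    fun i => exists_dual_fin hx0 (fun j => if j = i then 1 else 0)
  choose η hη using hex
  have e00 : η 0 x0 = 1 := by simpa using hη 0 0
  have e01 : η 0 (A x0) = 0 := by simpa using hη 0 1
  have e02 : η 0 (B x0) = 0 := by simpa using hη 0 2
  have e10 : η 1 x0 = 0 := by simpa using hη 1 0
  have e11 : η 1 (A x0) = 1 := by simpa using hη 1 1
  have e12 : η 1 (B x0) = 0 := by simpa using hη 1 2
  have e20 : η 2 x0 = 0 := by simpa using hη 2 0
  have e21 : η 2 (A x0) = 0 := by simpa using hη 2 1
  have e22 : η 2 (B x0) = 1 := by simpa using hη 2 2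
  set p := dpoly η x0 (y - x0) (A x0) (A (y - x0)) (B x0) (B (y - x0)) with hp
  have hp0 : p.eval 0 = 1 := by
    rw [hp, dpoly_eval]
    simp [dt3, e00, e01, e02, e10, e11, e12, e20, e21, e22]
  have hopen : IsOpen {f : Fin 2 → H | LinearIndependent ℂ f} := isOpen_setOfPred_linearIndependent
  have hcont : Continuous (fun t : ℂ => ![D (x0 + t • (y - x0)), K (x0 + t • (y - x0))]) := by
    apply continuous_pi
    intro i
    fin_cases i
    · simp only [Fin.zero_eta, Matrix.cons_val_zero]
      fun_prop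
    · simp only [Fin.mk_one, Matrix.cons_val_one]
      fun_prop
  have h1 : ∀ᶠ t in nhds (1 : ℂ), LinearIndependent ℂ
      ![D (x0 + t • (y - x0)), K (x0 + t • (y - x0))] := by
    apply hcont.continuousAt.eventually (hopen.mem_nhds ?_)
    simpa using hy
  have h2 : {t : ℂ | p.IsRoot t} ∈ nhds (1 : ℂ) := by
    filter_upwards [h1] with t ht
    change p.IsRoot t
    rw [Polynomial.IsRoot.def, hp, dpoly_eval]
    have h3 : ¬ LinearIndependent ℂ ![x0 + t • (y - x0), A (x0 + t • (y - x0)),
        B (x0 + t • (y - x0))] := fun h4 => h _ h4 ht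
    have h5 := e10b_dt3 (h := η) h3
    rw [map_add A, map_add B, map_smul A, map_smul B] at h5
    exact h5
  have h3 : p = 0 := Polynomial.eq_zero_of_infinite_isRoot p (infinite_of_mem_nhds 1 h2)
  rw [h3, Polynomial.eval_zero] at hp0
  exact zero_ne_one hp0

theorem normal_of_first (hH : Dim3 H) {T : H →L[ℂ] H} {η : ℂ} (hη : ‖η‖ = 1)
    (h : ∀ S, sr (skb (η • adjoint T) S) = sr (skb T S)) : T * adjoint T = adjoint T * T := by
  obtain ⟨D, hDdef⟩ : ∃ D, D = T - adjoint T := ⟨_, rfl⟩
  obtain ⟨K, hKdef⟩ : ∃ K, K = adjoint T * T - T * adjoint T := ⟨_, rfl⟩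
  have hDadj : adjoint D = -D := by
    rw [hDdef, map_sub, adjoint_adjoint]
    abel
  have hKadj : adjoint K = K := by
    rw [hKdef, map_sub, mul_def, mul_def, adjoint_comp, adjoint_comp, adjoint_adjoint]
  have hTD : T * D - D * T = K := by
    rw [hDdef, hKdef]
    noncomm_ring
  suffices hK : K = 0 by
    rw [hKdef, sub_eq_zero] at hK
    exact hK.symm
  have case1 : ∀ c : ℂ, K = c • D → K = 0 := by
    intro c hc
    by_cases hc0 : c = 0
    · rw [hc, hc0, zero_smul]
    · obtain ⟨n, hn⟩ := e10b_nilp (hTD.trans hc) hc0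
      rw [hc, e10b_skew_zero hDadj hn, smul_zero]
  have case0 : D = 0 → K = 0 := by
    intro h0
    rw [← hTD, h0, mul_zero, zero_mul, sub_zero]
  by_cases hex : ∃ x, LinearIndependent ℂ ![x, T x, adjoint T x]
  · obtain ⟨x0, hx0⟩ := hex
    have hall : ∀ y, ¬ LinearIndependent ℂ ![D y, K y] := by
      apply e10b_all hx0
      intro x hx
      rw [hDdef, hKdef]
      exact e10b_dep hη h x hx
    rcases locally_parallel D K hall with ⟨c, hc⟩ | ⟨c, hc⟩ | ⟨u, f, g, hf, hg⟩
    · exact case1 c hc
    · by_cases hc0 : c = 0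
      · exact case0 (by rw [hc, hc0, zero_smul])
      · exact case1 c⁻¹ (by rw [hc, smul_smul, inv_mul_cancel₀ hc0, one_smul])
    · by_cases hu : u = 0
      · rw [hg, hu]
        ext z
        simp
      have hf' : ∀ y, conj (f u) * inner ℂ u y = -(f y * inner ℂ u u) := by
        intro y
        have h1 : inner ℂ (D u) y = -inner ℂ u (D y) := by
          rw [← inner_neg_right, ← neg_apply, ← hDadj, adjoint_inner_right]
        rw [hf, smulRight_apply, smulRight_apply, inner_smul_left, inner_smul_right] at h1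
        exact h1
      have hg' : ∀ y, conj (g u) * inner ℂ u y = g y * inner ℂ u u := by
        intro y
        have h1 : inner ℂ (K u) y = inner ℂ u (K y) := by
          conv_rhs => rw [← hKadj]
          rw [adjoint_inner_right]
        rw [hg, smulRight_apply, smulRight_apply, inner_smul_left, inner_smul_right] at h1
        exact h1
      have hu' : inner ℂ u u ≠ 0 := fun h0 => hu (inner_self_eq_zero.1 h0)
      by_cases hfu : f u = 0
      · apply case0
        ext y
        have h1 := hf' y
        rw [hfu, map_zero, zero_mul, eq_comm, neg_eq_zero] at h1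
        rw [hf, smulRight_apply, (mul_eq_zero.1 h1).resolve_right hu', zero_smul]
        rfl
      · apply case1 (-(conj (g u) / conj (f u)))
        have hfu' : conj (f u) ≠ 0 := (map_ne_zero _).2 hfu
        ext y
        rw [hf, hg, smul_apply, smulRight_apply, smulRight_apply, smul_smul]
        congr 1
        have h1 := hf' y
        have h2 := hg' y
        field_simp
        apply mul_right_cancel₀ hu'
        linear_combination (-conj (f u)) * h2 + conj (g u) * h1
  · push Not at hex
    rcases lld T (adjoint T) hH hex with ⟨p, q, r, hne, h0⟩ | ⟨l, m, u, f, g, h1, h2⟩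
    · have e1 : p • K = 0 := by
        have e2 : adjoint T * (p • T + q • adjoint T + r • (1 : H →L[ℂ] H)) -
            (p • T + q • adjoint T + r • (1 : H →L[ℂ] H)) * adjoint T = p • K := by
          rw [hKdef]
          simp only [mul_add, add_mul, mul_smul_comm, smul_mul_assoc, mul_one, one_mul, smul_sub]
          abel
        rw [← e2, h0, mul_zero, zero_mul, sub_zero]
      have e3 : q • K = 0 := by
        have e4 : (p • T + q • adjoint T + r • (1 : H →L[ℂ] H)) * T -
            T * (p • T + q • adjoint T + r • (1 : H →L[ℂ] H)) = q • K := by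
          rw [hKdef]
          simp only [mul_add, add_mul, mul_smul_comm, smul_mul_assoc, mul_one, one_mul, smul_sub]
          abel
        rw [← e4, h0, mul_zero, zero_mul, sub_zero]
      by_cases hp : p = 0
      · by_cases hq : q = 0
        · have hr : r ≠ 0 := by
            rintro rfl
            exact hne (by rw [hp, hq])
          rw [hp, hq, zero_smul, zero_smul, zero_add, zero_add] at h0
          have h3 : (1 : H →L[ℂ] H) = 0 := (smul_eq_zero.1 h0).resolve_left hr
          rw [← mul_one K, h3, mul_zero]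
        · exact (smul_eq_zero.1 e3).resolve_left hq
      · exact (smul_eq_zero.1 e1).resolve_left hp
    · have hK2 : K = rk u (g u • f - f u • g) := by
        rw [hKdef, h2, h1]
        ext z
        change (m • (l • z + f z • u) + g (l • z + f z • u) • u) -
          (l • (m • z + g z • u) + f (m • z + g z • u) • u) = (g u * f z - f u * g z) • u
        simp only [map_add, map_smul, smul_eq_mul]
        module
      apply e10b_sa_sq hKadj
      rw [hK2]
      ext z
      change (g u * f ((g u * f z - f u * g z) • u) - f u * g ((g u * f z - f u * g z) • u)) • u = 0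
      simp only [map_smul, smul_eq_mul]
      module

end e10b

end PR
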